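import Pool.Agent.H87.SN.Targets

/-!
# Wirtinger inequality on circles, integrated (row WIC of snk_modules)
-/

set_option autoImplicit false

namespace Pool.Agent.H68.SN

open Pool.Agent.H87.SN
open MeasureTheory Metric Set Filter Topology
open scoped ContDiff RealInnerProductSpace

theorem cont_mul_of_tsupport {n : ℕ} {U : Set (E n)} (hU : IsOpen U) {a g : E n → ℝ}
    (ha : Continuous a) (has : tsupport a ⊆ U) (hg : ContinuousOn g U) :
    Continuous (fun x => a x * g x) := by
  refine continuous_of_tsupport fun x hx => ?_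
  have h1 : x ∈ tsupport a := tsupport_mul_subset_left hx
  exact ha.continuousAt.mul (hg.continuousAt (hU.mem_nhds (has h1)))

theorem contDiffOn_uth {d m : ℕ} {U : Set (E (d + 2))} {u : E (d + 2) → E m} (hU : IsOpen U)
    (hu : ContDiffOn ℝ ∞ u U) : ContDiffOn ℝ ∞ (uth u) U := by
  unfold uth
  have h1 : ContDiffOn ℝ ∞ (fderiv ℝ u) U := hu.fderiv_of_isOpen hU (by simp)
  exact h1.clm_apply (Jm d).contDiff.contDiffOn

theorem contDiffOn_uthth {d m : ℕ} {U : Set (E (d + 2))} {u : E (d + 2) → E m} (hU : IsOpen U)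
    (hu : ContDiffOn ℝ ∞ u U) : ContDiffOn ℝ ∞ (uthth u) U := by
  unfold uthth
  have h1 : ContDiffOn ℝ ∞ (fderiv ℝ (uth u)) U :=
    (contDiffOn_uth hU hu).fderiv_of_isOpen hU (by simp)
  exact h1.clm_apply (Jm d).contDiff.contDiffOn

theorem contDiff_rot {d : ℕ} (x : E (d + 2)) : ContDiff ℝ ∞ (fun θ : ℝ => rot θ x) := by
  unfold rot
  exact (contDiff_const.add ((Real.contDiff_cos.sub contDiff_const).smul contDiff_const)).add
    (Real.contDiff_sin.smul contDiff_const)

/-- the inequality on one circle -/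
theorem circle (hROT : T_ROT) (hWIR : T_WIR) {d m : ℕ} {U : Set (E (d + 2))}
    {u : E (d + 2) → E m} (hU : IsOpen U) (hR : RotSet U) (hu : ContDiffOn ℝ ∞ u U)
    {x : E (d + 2)} (hx : x ∈ U) :
    ∫ θ in (0 : ℝ)..(2 * Real.pi), ‖uth u (rot θ x)‖ ^ 2 ≤
      ∫ θ in (0 : ℝ)..(2 * Real.pi), ‖uthth u (rot θ x)‖ ^ 2 := by
  have RF := hROT d
  have hxU : ∀ θ : ℝ, rot θ x ∈ U := fun θ => hR θ x hx
  have h1 : ContDiff ℝ ∞ (fun θ : ℝ => uth u (rot θ x)) := by
    rw [contDiff_iff_contDiffAt]
    intro θ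
    have h2 : ContDiffAt ℝ ∞ (uth u) (rot θ x) :=
      (contDiffOn_uth hU hu).contDiffAt (hU.mem_nhds (hxU θ))
    exact h2.comp θ (contDiff_rot x).contDiffAt
  have h2 : ∀ θ : ℝ, HasDerivAt (fun θ : ℝ => uth u (rot θ x)) (uthth u (rot θ x)) θ := by
    intro θ
    have h3 : DifferentiableAt ℝ (uth u) (rot θ x) :=
      ((contDiffOn_uth hU hu).contDiffAt (hU.mem_nhds (hxU θ))).differentiableAt (by simp)
    exact h3.hasFDerivAt.comp_hasDerivAt θ (RF.hasDeriv x θ)
  have h3 : ∀ θ : ℝ, HasDerivAt (fun θ : ℝ => u (rot θ x)) (uth u (rot θ x)) θ := by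
    intro θ
    have h4 : DifferentiableAt ℝ u (rot θ x) :=
      (hu.contDiffAt (hU.mem_nhds (hxU θ))).differentiableAt (by simp)
    exact h4.hasFDerivAt.comp_hasDerivAt θ (RF.hasDeriv x θ)
  have h4 : ∫ θ in (0 : ℝ)..(2 * Real.pi), uth u (rot θ x) = 0 := by
    rw [intervalIntegral.integral_eq_sub_of_hasDerivAt (fun θ _ => h3 θ)
      (h1.continuous.intervalIntegrable _ _)]
    have h5 := RF.period 0 x
    rw [zero_add] at h5
    rw [h5, sub_self]
  have h5 := hWIR m (fun θ : ℝ => uth u (rot θ x)) (h1.of_le (by simp))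
    (fun θ => by rw [RF.period]) h4
  refine h5.trans (le_of_eq ?_)
  refine intervalIntegral.integral_congr fun θ _ => ?_
  rw [(h2 θ).deriv]

/-- averaging over the rotations -/
theorem average (hROT : T_ROT) {d : ℕ} {U : Set (E (d + 2))} {a g : E (d + 2) → ℝ}
    (hU : IsOpen U) (ha : Continuous a) (hac : HasCompactSupport a) (has : tsupport a ⊆ U)
    (hrot : ∀ (θ : ℝ) (x : E (d + 2)), a (rot θ x) = a x) (hg : ContinuousOn g U) :
    (2 * Real.pi) * ∫ x, a x * g x =
      ∫ x, ∫ θ in Set.Ioc (0 : ℝ) (2 * Real.pi), a x * g (rot θ x) ∧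
    Integrable (fun x => ∫ θ in Set.Ioc (0 : ℝ) (2 * Real.pi), a x * g (rot θ x)) := by
  have RF := hROT d
  have hc := cont_mul_of_tsupport hU ha has hg
  have hG : Continuous (fun p : ℝ × E (d + 2) => a (rot p.1 p.2) * g (rot p.1 p.2)) :=
    hc.comp RF.cont
  have hI : Integrable (Function.uncurry fun (θ : ℝ) (x : E (d + 2)) => a x * g (rot θ x))
      ((volume.restrict (Set.Ioc (0 : ℝ) (2 * Real.pi))).prod volume) := by
    have e1 : (Function.uncurry fun (θ : ℝ) (x : E (d + 2)) => a x * g (rot θ x)) =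
        fun p : ℝ × E (d + 2) => a (rot p.1 p.2) * g (rot p.1 p.2) := by
      funext p
      obtain ⟨θ, x⟩ := p
      simp only [Function.uncurry]
      rw [hrot]
    rw [e1]
    have e2 : (volume.restrict (Set.Ioc (0 : ℝ) (2 * Real.pi))).prod
        (volume : Measure (E (d + 2))) =
        ((volume : Measure ℝ).prod (volume : Measure (E (d + 2)))).restrict
          (Set.Ioc (0 : ℝ) (2 * Real.pi) ×ˢ Set.univ) := by
      rw [← Measure.prod_restrict, Measure.restrict_univ]
    rw [e2]
    have h1 : IntegrableOn (fun p : ℝ × E (d + 2) => a (rot p.1 p.2) * g (rot p.1 p.2))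
        (Set.Icc (0 : ℝ) (2 * Real.pi) ×ˢ tsupport a)
        ((volume : Measure ℝ).prod (volume : Measure (E (d + 2)))) :=
      hG.continuousOn.integrableOn_compact (isCompact_Icc.prod hac)
    refine h1.of_forall_sdiff_eq_zero (measurableSet_Ioc.prod MeasurableSet.univ) ?_
    rintro ⟨θ, x⟩ ⟨⟨hθ, _⟩, hn⟩
    have hx : x ∉ tsupport a := fun hx => hn ⟨⟨hθ.1.le, hθ.2⟩, hx⟩
    simp only
    rw [hrot, image_eq_zero_of_notMem_tsupport hx, zero_mul]
  constructor
  · rw [← integral_integral_swap hI]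
    have h1 : ∀ θ : ℝ, ∫ x, a x * g (rot θ x) = ∫ x, a x * g x := by
      intro θ
      have h2 : ∫ x, a x * g (rot θ x) = ∫ x, a (rot θ x) * g (rot θ x) := by
        refine integral_congr_ae (Filter.Eventually.of_forall fun x => ?_)
        simp only
        rw [hrot]
      rw [h2]
      have hme : AEStronglyMeasurable (fun x => a x * g x) (Measure.map (rot (d := d) θ) volume) :=
        hc.aestronglyMeasurable
      have h4 := integral_map (RF.mp θ).measurable.aemeasurable hme
      rw [(RF.mp θ).map_eq] at h4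
      exact h4.symm
    simp only [h1]
    rw [integral_const, measureReal_restrict_apply_univ, Real.volume_real_Ioc_of_le
      (by positivity), sub_zero, smul_eq_mul]
  · exact hI.integral_prod_right

theorem pf_WIC (hROT : T_ROT) (hWIR : T_WIR) : T_WIC := by
  intro d m U u a hU hR hu ha hac has ha0 hrot
  have c1 : ContinuousOn (fun x => ‖uth u x‖ ^ 2) U :=
    ((contDiffOn_uth hU hu).continuousOn.norm).pow 2
  have c2 : ContinuousOn (fun x => ‖uthth u x‖ ^ 2) U :=
    ((contDiffOn_uthth hU hu).continuousOn.norm).pow 2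
  obtain ⟨e1, i1⟩ := average hROT hU ha hac has hrot c1
  obtain ⟨e2, i2⟩ := average hROT hU ha hac has hrot c2
  have hpi : (0 : ℝ) < 2 * Real.pi := by positivity
  refine le_of_mul_le_mul_left ?_ hpi
  rw [e1, e2]
  refine integral_mono i1 i2 fun x => ?_
  simp only
  rw [integral_const_mul, integral_const_mul]
  by_cases hx : x ∈ U
  · refine mul_le_mul_of_nonneg_left ?_ (ha0 x)
    have h1 := circle hROT hWIR hU hR hu hx
    rw [intervalIntegral.integral_of_le hpi.le, intervalIntegral.integral_of_le hpi.le] at h1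
    exact h1
  · rw [image_eq_zero_of_notMem_tsupport (fun h => hx (has h)), zero_mul, zero_mul]

end Pool.Agent.H68.SN
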